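import Mathlib

/-!
# Nested intervals

Sets of Mills type are not countable: an abstract construction, and the powers `A ^ (e n)`.
-/

set_option autoImplicit false

namespace Pool.Agent.V11287.MI

open Filter Topology

/-- nested intervals avoiding a countable set -/
theorem nested {a b : ℝ} (G : ℕ → ℝ → ℝ → Prop) (T : ℕ → Set ℝ) (hab : a < b) (h0 : G 0 a b)
    (hstep : ∀ n x y, a ≤ x → x < y → y ≤ b → G n x y → ∀ q : ℝ, ∃ x' y', x < x' ∧ x' < y' ∧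
      y' < y ∧ G (n + 1) x' y' ∧ q ∉ Set.Icc x' y' ∧ Set.Icc x' y' ⊆ T n) :
    ¬ {A : ℝ | a < A ∧ A < b ∧ ∀ n, A ∈ T n}.Countable := by
  intro hc
  obtain ⟨q, hq⟩ := Set.countable_iff_exists_subset_range.1 hc
  -- the states
  let St : ℕ → Type := fun n => {p : ℝ × ℝ // a ≤ p.1 ∧ p.1 < p.2 ∧ p.2 ≤ b ∧ G n p.1 p.2}
  have hnext : ∀ n (p : St n), ∃ p' : St (n + 1), p.1.1 < p'.1.1 ∧ p'.1.2 < p.1.2 ∧
      q n ∉ Set.Icc p'.1.1 p'.1.2 ∧ Set.Icc p'.1.1 p'.1.2 ⊆ T n := by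
    rintro n ⟨⟨x, y⟩, h1, h2, h3, h4⟩
    obtain ⟨x', y', g1, g2, g3, g4, g5, g6⟩ := hstep n x y h1 h2 h3 h4 (q n)
    exact ⟨⟨(x', y'), h1.trans g1.le, g2, g3.le.trans h3, g4⟩, g1, g3, g5, g6⟩
  choose nx hnx using hnext
  let s : ∀ n, St n := fun n => Nat.rec (⟨(a, b), le_rfl, hab, le_rfl, h0⟩ : St 0)
    (fun n p => nx n p) n
  have hs : ∀ n, s (n + 1) = nx n (s n) := fun n => rfl
  let x : ℕ → ℝ := fun n => (s n).1.1
  let y : ℕ → ℝ := fun n => (s n).1.2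
  have hx : ∀ n, x n < x (n + 1) := by
    intro n
    have := (hnx n (s n)).1
    show (s n).1.1 < (s (n + 1)).1.1
    rw [hs]
    exact this
  have hy : ∀ n, y (n + 1) < y n := by
    intro n
    have := (hnx n (s n)).2.1
    show (s (n + 1)).1.2 < (s n).1.2
    rw [hs]
    exact this
  have hxy : ∀ n, x n < y n := fun n => (s n).2.2.1
  have hmx : StrictMono x := strictMono_nat_of_lt_succ hx
  have hay : StrictAnti y := strictAnti_nat_of_succ_lt hy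
  have hxy2 : ∀ m n, x m < y n := by
    intro m n
    calc x m ≤ x (max m n) := hmx.monotone (le_max_left _ _)
      _ < y (max m n) := hxy _
      _ ≤ y n := hay.antitone (le_max_right _ _)
  have hbd : BddAbove (Set.range x) := ⟨y 0, by rintro _ ⟨m, rfl⟩; exact (hxy2 m 0).le⟩
  set α : ℝ := ⨆ n, x n with hα
  have h1 : ∀ n, x n ≤ α := fun n => le_ciSup hbd n
  have h2 : ∀ n, α ≤ y n := fun n => ciSup_le fun m => (hxy2 m n).le
  have hmem : ∀ n, α ∈ Set.Icc (x (n + 1)) (y (n + 1)) := fun n => ⟨h1 (n + 1), h2 (n + 1)⟩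
  have hT : ∀ n, α ∈ T n := by
    intro n
    have := (hnx n (s n)).2.2.2
    apply this
    have h3 := hmem n
    show α ∈ Set.Icc (nx n (s n)).1.1 (nx n (s n)).1.2
    rw [← hs]
    exact h3
  have hq' : ∀ n, q n ≠ α := by
    intro n h
    have := (hnx n (s n)).2.2.1
    apply this
    rw [h]
    have h3 := hmem n
    show α ∈ Set.Icc (nx n (s n)).1.1 (nx n (s n)).1.2
    rw [← hs]
    exact h3
  have hαS : α ∈ {A : ℝ | a < A ∧ A < b ∧ ∀ n, A ∈ T n} := by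
    refine ⟨?_, ?_, hT⟩
    · calc a = x 0 := rfl
        _ < x 1 := hx 0
        _ ≤ α := h1 1
    · calc α ≤ y 1 := h2 1
        _ < y 0 := hy 0
        _ = b := rfl
  obtain ⟨n, hn⟩ := hq hαS
  exact hq' n hn

/-- a difference of powers -/
theorem pow_sub_ge {u w κ : ℝ} (hu : 0 < u) (huw : u ≤ w) (hκ : 1 ≤ κ) :
    w ^ (κ - 1) * (w - u) ≤ w ^ κ - u ^ κ := by
  have hw : 0 < w := hu.trans_le huw
  have h1 : w ^ κ = w ^ (κ - 1) * w := by
    rw [Real.rpow_sub_one hw.ne']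
    field_simp
  have h2 : u ^ κ = u ^ (κ - 1) * u := by
    rw [Real.rpow_sub_one hu.ne']
    field_simp
  have h3 : u ^ (κ - 1) ≤ w ^ (κ - 1) := Real.rpow_le_rpow hu.le huw (by linarith)
  rw [h1, h2]
  nlinarith [mul_le_mul_of_nonneg_right h3 hu.le]

/-- **A theorem of Mills type.**  If every interval `[X, X + X ^ θ]`, `X ≥ a ^ (e n)`, contains an
element of `S n`, and `e (n + 1) ≥ c * e n` with `c (1 - θ) ≥ 1 + η`, then the set of `A` between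
`a` and `b` with `⌊A ^ (e n)⌋ ∈ S n` for all `n` is not countable. -/
theorem mills {θ c η : ℝ} (hθ0 : 0 < θ) (hθ1 : θ < 1) (hη : 0 < η) (hc : 1 + η ≤ c * (1 - θ))
    (e : ℕ → ℝ) (he0 : 0 < e 0) (he : ∀ n, c * e n ≤ e (n + 1)) (S : ℕ → Set ℕ) {a b : ℝ}
    (ha : 1 < a) (hab : a < b) (hbig : (16 : ℝ) ^ (1 / η) ≤ a ^ e 0)
    (h0 : a ^ e 0 + 8 * (b ^ e 0) ^ θ ≤ b ^ e 0)
    (hS : ∀ n, ∀ X : ℝ, a ^ e n ≤ X → ∃ N ∈ S n, X ≤ (N : ℝ) ∧ (N : ℝ) ≤ X + X ^ θ) :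
    ¬ {A : ℝ | a < A ∧ A < b ∧ ∀ n, ⌊A ^ e n⌋₊ ∈ S n}.Countable := by
  have hc1 : 1 < c := by nlinarith
  have hepos : ∀ n, 0 < e n := by
    intro n
    induction n with
    | zero => exact he0
    | succ n ih => exact lt_of_lt_of_le (by positivity) (he n)
  have hemono : Monotone e := monotone_nat_of_le_succ fun n => by
    have := hepos n
    have := he n
    nlinarith
  have hge : ∀ n x, a ≤ x → a ^ e 0 ≤ x ^ e n := by
    intro n x hx
    calc a ^ e 0 ≤ a ^ e n := Real.rpow_le_rpow_of_exponent_le ha.le (hemono (Nat.zero_le n))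
      _ ≤ x ^ e n := Real.rpow_le_rpow (by linarith) hx (hepos n).le
  have h16 : (1 : ℝ) ≤ 16 ^ (1 / η) := Real.one_le_rpow (by norm_num) (by positivity)
  have key := nested (a := a) (b := b) (fun n x y => x ^ e n + 8 * (y ^ e n) ^ θ ≤ y ^ e n)
    (fun n => {A | ⌊A ^ e n⌋₊ ∈ S n}) hab h0 ?_
  · exact key
  intro n x y hx hxy hyb hG q
  have hx0 : 0 < x := by linarith
  have hy0 : 0 < y := by linarith
  have hen := hepos n
  set U := x ^ e n with hU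
  set W := y ^ e n with hW
  have hUa : a ^ e n ≤ U := Real.rpow_le_rpow (by linarith) hx hen.le
  have hU1 : 16 ^ (1 / η) ≤ U := hbig.trans (hge n x hx)
  have hUW : U < W := Real.rpow_lt_rpow hx0.le hxy hen
  have hU0 : 1 ≤ U := h16.trans hU1
  have hW1 : 1 ≤ W := hU0.trans hUW.le
  have hWθ : 1 ≤ W ^ θ := Real.one_le_rpow hW1 hθ0.le
  -- the two elements
  obtain ⟨N1, hN1, hN1a, hN1b⟩ := hS n (U + 1) (by linarith)
  obtain ⟨N2, hN2, hN2a, hN2b⟩ := hS n (U + W ^ θ + 3) (by linarith)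
  have e1 : (U + 1) ^ θ ≤ W ^ θ := Real.rpow_le_rpow (by linarith) (by linarith) hθ0.le
  have e2 : (U + W ^ θ + 3) ^ θ ≤ W ^ θ := Real.rpow_le_rpow (by linarith) (by linarith) hθ0.le
  -- the intervals
  have hI : ∀ N : ℕ, N ∈ S n → U + 1 ≤ (N : ℝ) → (N : ℝ) + 1 ≤ W →
      x < ((N : ℝ) + 1 / 4) ^ (e n)⁻¹ ∧
      ((N : ℝ) + 1 / 4) ^ (e n)⁻¹ < ((N : ℝ) + 3 / 4) ^ (e n)⁻¹ ∧
      ((N : ℝ) + 3 / 4) ^ (e n)⁻¹ < y ∧
      (((N : ℝ) + 1 / 4) ^ (e n)⁻¹) ^ e (n + 1) +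
        8 * ((((N : ℝ) + 3 / 4) ^ (e n)⁻¹) ^ e (n + 1)) ^ θ ≤
          (((N : ℝ) + 3 / 4) ^ (e n)⁻¹) ^ e (n + 1) ∧
      Set.Icc (((N : ℝ) + 1 / 4) ^ (e n)⁻¹) (((N : ℝ) + 3 / 4) ^ (e n)⁻¹) ⊆
        {A | ⌊A ^ e n⌋₊ ∈ S n} := by
    intro N hN hNU hNW
    have hN0 : (1 : ℝ) ≤ N := by linarith
    have hinv : 0 < (e n)⁻¹ := inv_pos.2 hen
    have hxU : x = U ^ (e n)⁻¹ := by
      rw [hU, Real.rpow_rpow_inv hx0.le hen.ne']
    have hyW : y = W ^ (e n)⁻¹ := by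
      rw [hW, Real.rpow_rpow_inv hy0.le hen.ne']
    refine ⟨?_, ?_, ?_, ?_, ?_⟩
    · rw [hxU]
      exact Real.rpow_lt_rpow (by linarith) (by linarith) hinv
    · exact Real.rpow_lt_rpow (by linarith) (by linarith) hinv
    · conv_rhs => rw [hyW]
      exact Real.rpow_lt_rpow (by linarith) (by linarith) hinv
    · set u : ℝ := (N : ℝ) + 1 / 4 with hu
      set w : ℝ := (N : ℝ) + 3 / 4 with hw
      have hu0 : 0 < u := by linarith
      have hw0 : 0 < w := by linarith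
      have hκ : c ≤ (e n)⁻¹ * e (n + 1) := by
        rw [inv_mul_eq_div, le_div_iff₀ hen]
        exact he n
      rw [← Real.rpow_mul hu0.le, ← Real.rpow_mul hw0.le, ← Real.rpow_mul hw0.le]
      set κ : ℝ := (e n)⁻¹ * e (n + 1) with hκd
      have h1 := pow_sub_ge (κ := κ) hu0 (by linarith : u ≤ w) (by linarith)
      have h2 : w - u = 1 / 2 := by rw [hu, hw]; ring
      rw [h2] at h1
      have h3 : w ^ (κ - 1) = w ^ (κ * θ) * w ^ (κ * (1 - θ) - 1) := by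
        rw [← Real.rpow_add hw0]
        congr 1
        ring
      have h4 : (16 : ℝ) ≤ w ^ (κ * (1 - θ) - 1) := by
        have h5 : η ≤ κ * (1 - θ) - 1 := by nlinarith
        have h6 : (16 : ℝ) ^ (1 / η) ≤ w := by linarith
        calc (16 : ℝ) = ((16 : ℝ) ^ (1 / η)) ^ η := by
              rw [← Real.rpow_mul (by norm_num), one_div, inv_mul_cancel₀ hη.ne', Real.rpow_one]
          _ ≤ w ^ η := Real.rpow_le_rpow (by positivity) h6 hη.le
          _ ≤ _ := Real.rpow_le_rpow_of_exponent_le (by linarith) h5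
      have h5 : 0 < w ^ (κ * θ) := Real.rpow_pos_of_pos hw0 _
      rw [h3] at h1
      nlinarith
    · rintro A ⟨hA1, hA2⟩
      have h1 : (0 : ℝ) < ((N : ℝ) + 1 / 4) ^ (e n)⁻¹ := Real.rpow_pos_of_pos (by linarith) _
      have hA0 : 0 < A := h1.trans_le hA1
      have h2 : (N : ℝ) + 1 / 4 ≤ A ^ e n := by
        calc (N : ℝ) + 1 / 4 = (((N : ℝ) + 1 / 4) ^ (e n)⁻¹) ^ e n := by
              rw [Real.rpow_inv_rpow (by linarith) hen.ne']
          _ ≤ A ^ e n := Real.rpow_le_rpow h1.le hA1 hen.le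
      have h3 : A ^ e n ≤ (N : ℝ) + 3 / 4 := by
        calc A ^ e n ≤ (((N : ℝ) + 3 / 4) ^ (e n)⁻¹) ^ e n :=
              Real.rpow_le_rpow hA0.le hA2 hen.le
          _ = (N : ℝ) + 3 / 4 := by
              rw [Real.rpow_inv_rpow (by linarith) hen.ne']
      have h4 : ⌊A ^ e n⌋₊ = N := by
        rw [Nat.floor_eq_iff (by linarith)]
        constructor <;> linarith
      show ⌊A ^ e n⌋₊ ∈ S n
      rw [h4]
      exact hN
  have hI1 := hI N1 hN1 hN1a (by linarith)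
  have hI2 := hI N2 hN2 (by linarith) (by linarith)
  by_cases hq : q ∈ Set.Icc (((N1 : ℝ) + 1 / 4) ^ (e n)⁻¹) (((N1 : ℝ) + 3 / 4) ^ (e n)⁻¹)
  · refine ⟨_, _, hI2.1, hI2.2.1, hI2.2.2.1, hI2.2.2.2.1, ?_, hI2.2.2.2.2⟩
    intro hq2
    have h1 := hq.2
    have h2 := hq2.1
    have h3 : ((N1 : ℝ) + 3 / 4) ^ (e n)⁻¹ < ((N2 : ℝ) + 1 / 4) ^ (e n)⁻¹ :=
      Real.rpow_lt_rpow (by linarith) (by linarith) (inv_pos.2 hen)
    linarith
  · exact ⟨_, _, hI1.1, hI1.2.1, hI1.2.2.1, hI1.2.2.2.1, hq, hI1.2.2.2.2⟩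

end Pool.Agent.V11287.MI
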