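import Pool.Agent.V11287.MI.Nest

/-! # Nested intervals: the multiples `α v_n` -/

set_option autoImplicit false

namespace Pool.Agent.V11287.MI

open Filter Topology

/-- uncountably many `α` with `⌊α v_n⌋ ∈ S n` for all `n` -/
theorem multiples {θ κ η : ℝ} (hθ0 : 0 < θ) (hη : 0 < η) (hκ : 1 + η ≤ κ * (1 - θ)) (hθ1 : θ < 1)
    (v : ℕ → ℝ) (hv0 : 1 ≤ v 0) (hv : ∀ n, v n ^ κ ≤ v (n + 1)) (S : ℕ → Set ℕ) {a b : ℝ}
    (ha : 0 < a) (hab : a < b) (hbig : 16 * b ^ θ ≤ v 0 ^ η) (h1a : 1 ≤ a * v 0)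
    (h0 : a * v 0 + 8 * (b * v 0) ^ θ ≤ b * v 0)
    (hS : ∀ n, ∀ X : ℝ, a * v n ≤ X → ∃ N ∈ S n, X ≤ (N : ℝ) ∧ (N : ℝ) ≤ X + X ^ θ) :
    ¬ {A : ℝ | a < A ∧ A < b ∧ ∀ n, ⌊A * v n⌋₊ ∈ S n}.Countable := by
  have hκ1 : 1 ≤ κ := by nlinarith
  have hge : ∀ n, 1 ≤ v n ∧ v 0 ≤ v n := by
    intro n
    induction n with
    | zero => exact ⟨hv0, le_rfl⟩
    | succ n ih =>
      have h1 : v n ≤ v n ^ κ := by
        calc v n = v n ^ (1 : ℝ) := (Real.rpow_one _).symm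
          _ ≤ v n ^ κ := Real.rpow_le_rpow_of_exponent_le ih.1 hκ1
      exact ⟨ih.1.trans (h1.trans (hv n)), ih.2.trans (h1.trans (hv n))⟩
  have key := nested (a := a) (b := b) (fun n x y => x * v n + 8 * (y * v n) ^ θ ≤ y * v n)
    (fun n => {A | ⌊A * v n⌋₊ ∈ S n}) hab h0 ?_
  · exact key
  intro n x y hx hxy hyb hG q
  have hvn := (hge n).1
  have hvn0 : 0 < v n := by linarith
  have hx0 : 0 < x := by linarith
  have hy0 : 0 < y := by linarith
  have hb0 : 0 < b := by linarith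
  set U := x * v n with hU
  set W := y * v n with hW
  have hUa : a * v n ≤ U := mul_le_mul_of_nonneg_right hx hvn0.le
  have hU0 : 1 ≤ U := by
    have : a * v 0 ≤ a * v n := mul_le_mul_of_nonneg_left (hge n).2 ha.le
    linarith
  have hUW : U < W := mul_lt_mul_of_pos_right hxy hvn0
  have hW1 : 1 ≤ W := hU0.trans hUW.le
  have hWθ : 1 ≤ W ^ θ := Real.one_le_rpow hW1 hθ0.le
  obtain ⟨N1, hN1, hN1a, hN1b⟩ := hS n (U + 1) (by linarith)
  obtain ⟨N2, hN2, hN2a, hN2b⟩ := hS n (U + W ^ θ + 3) (by linarith)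
  have e1 : (U + 1) ^ θ ≤ W ^ θ := Real.rpow_le_rpow (by linarith) (by linarith) hθ0.le
  have e2 : (U + W ^ θ + 3) ^ θ ≤ W ^ θ := Real.rpow_le_rpow (by linarith) (by linarith) hθ0.le
  have hI : ∀ N : ℕ, N ∈ S n → U + 1 ≤ (N : ℝ) → (N : ℝ) + 1 ≤ W →
      x < ((N : ℝ) + 1 / 4) / v n ∧
      ((N : ℝ) + 1 / 4) / v n < ((N : ℝ) + 3 / 4) / v n ∧
      ((N : ℝ) + 3 / 4) / v n < y ∧
      (((N : ℝ) + 1 / 4) / v n) * v (n + 1) + 8 * ((((N : ℝ) + 3 / 4) / v n) * v (n + 1)) ^ θ ≤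
          (((N : ℝ) + 3 / 4) / v n) * v (n + 1) ∧
      Set.Icc (((N : ℝ) + 1 / 4) / v n) (((N : ℝ) + 3 / 4) / v n) ⊆ {A | ⌊A * v n⌋₊ ∈ S n} := by
    intro N hN hNU hNW
    have hN0 : (1 : ℝ) ≤ N := by linarith
    have hy' : ((N : ℝ) + 3 / 4) / v n < y := by
      rw [div_lt_iff₀ hvn0]
      linarith
    refine ⟨?_, ?_, hy', ?_, ?_⟩
    · rw [lt_div_iff₀ hvn0]
      linarith
    · exact div_lt_div_of_pos_right (by linarith) hvn0
    · have hv1 := (hge (n + 1)).1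
      have hv10 : 0 < v (n + 1) := by linarith
      have h1 : (((N : ℝ) + 3 / 4) / v n) * v (n + 1) ≤ b * v (n + 1) :=
        mul_le_mul_of_nonneg_right (by linarith) hv10.le
      have h2 : ((((N : ℝ) + 3 / 4) / v n) * v (n + 1)) ^ θ ≤ b ^ θ * v (n + 1) ^ θ := by
        rw [← Real.mul_rpow hb0.le hv10.le]
        exact Real.rpow_le_rpow (by positivity) h1 hθ0.le
      have h3 : 16 * b ^ θ * v n ≤ v (n + 1) ^ (1 - θ) := by
        calc 16 * b ^ θ * v n ≤ v 0 ^ η * v n := mul_le_mul_of_nonneg_right hbig hvn0.le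
          _ ≤ v n ^ η * v n := mul_le_mul_of_nonneg_right
              (Real.rpow_le_rpow (by linarith) (hge n).2 hη.le) hvn0.le
          _ = v n ^ (1 + η) := by
              rw [Real.rpow_add hvn0, Real.rpow_one, mul_comm]
          _ ≤ v n ^ (κ * (1 - θ)) := Real.rpow_le_rpow_of_exponent_le hvn hκ
          _ = (v n ^ κ) ^ (1 - θ) := by rw [Real.rpow_mul hvn0.le]
          _ ≤ v (n + 1) ^ (1 - θ) :=
              Real.rpow_le_rpow (Real.rpow_nonneg hvn0.le _) (hv n) (by linarith)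
      have h4 : 16 * b ^ θ * v n * v (n + 1) ^ θ ≤ v (n + 1) := by
        calc 16 * b ^ θ * v n * v (n + 1) ^ θ ≤ v (n + 1) ^ (1 - θ) * v (n + 1) ^ θ :=
              mul_le_mul_of_nonneg_right h3 (Real.rpow_nonneg hv10.le _)
          _ = v (n + 1) := by
              rw [← Real.rpow_add hv10]
              have : 1 - θ + θ = 1 := by ring
              rw [this, Real.rpow_one]
      have h5 : 8 * (b ^ θ * v (n + 1) ^ θ) ≤ v (n + 1) / (2 * v n) := by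
        rw [le_div_iff₀ (by positivity)]
        linarith
      have h6 : (((N : ℝ) + 3 / 4) / v n) * v (n + 1) - (((N : ℝ) + 1 / 4) / v n) * v (n + 1) =
          v (n + 1) / (2 * v n) := by
        field_simp
        ring
      linarith
    · rintro A ⟨hA1, hA2⟩
      rw [div_le_iff₀ hvn0] at hA1
      rw [le_div_iff₀ hvn0] at hA2
      have h4 : ⌊A * v n⌋₊ = N := by
        rw [Nat.floor_eq_iff (by linarith)]
        constructor <;> linarith
      show ⌊A * v n⌋₊ ∈ S n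
      rw [h4]
      exact hN
  have hI1 := hI N1 hN1 hN1a (by linarith)
  have hI2 := hI N2 hN2 (by linarith) (by linarith)
  by_cases hq : q ∈ Set.Icc (((N1 : ℝ) + 1 / 4) / v n) (((N1 : ℝ) + 3 / 4) / v n)
  · refine ⟨_, _, hI2.1, hI2.2.1, hI2.2.2.1, hI2.2.2.2.1, ?_, hI2.2.2.2.2⟩
    intro hq2
    have h1 := hq.2
    have h2 := hq2.1
    have h3 : ((N1 : ℝ) + 3 / 4) / v n < ((N2 : ℝ) + 1 / 4) / v n :=
      div_lt_div_of_pos_right (by linarith) hvn0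
    linarith
  · exact ⟨_, _, hI1.1, hI1.2.1, hI1.2.2.1, hI1.2.2.2.1, hq, hI1.2.2.2.2⟩

end Pool.Agent.V11287.MI
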